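import Mathlib

namespace Pool.Agent.Results.MP_5f25aa_nt.Counter

/-- Arithmetic expressions built from copies of `2` with addition and multiplication. -/
inductive Expr : Type
  | two : Expr
  | add : Expr → Expr → Expr
  | mul : Expr → Expr → Expr

/-- The value of an expression. -/
def Expr.val : Expr → ℕ
  | .two => 2
  | .add a b => a.val + b.val
  | .mul a b => a.val * b.val

/-- The number of copies of `2` in an expression. -/
def Expr.size : Expr → ℕ
  | .two => 1
  | .add a b => a.size + b.size
  | .mul a b => a.size + b.size

/-- The 2-complexity: the least number of copies of `2` in an expression with value `n`. -/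
noncomputable def complexity (n : ℕ) : ℕ :=
  sInf {k : ℕ | ∃ e : Expr, e.val = n ∧ e.size = k}

open Expr in
/-- An expression for `10 ^ 10` with 39 copies of `2` (proof tool). -/
def witness : Expr :=
  (mul (mul (mul (mul (mul (mul (mul (mul (mul two two) two) two) two) two) two) two) two)
    (add (mul (mul (mul two (add (add two two) two)) (add (mul (mul (mul two two) two) (add
    (mul (mul (mul (mul (mul two two) two) two) two) (add two two)) two)) two)) (add (mul (mul
    two (add (add two two) two)) (add (mul (mul (mul (mul (mul two two) two) two) two) (add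
    two two)) two)) two)) two))

theorem result : ¬ (∀ m u r : ℕ, 2 ≤ u → 1 ≤ r →
    complexity (2 ^ m * (2 ^ u + 2) ^ r) = m + (u + 1) * r) := by
  intro h
  have h1 := h 0 3 10 (by norm_num) (by norm_num)
  have h2 : complexity (2 ^ 0 * (2 ^ 3 + 2) ^ 10) ≤ 39 :=
    Nat.sInf_le ⟨witness, by decide +kernel, by decide +kernel⟩
  omega

end Pool.Agent.Results.MP_5f25aa_nt.Counter
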